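import Mathlib

set_option autoImplicit false

namespace Pool.Agent.FreeIdx2

open Matrix

/-- The free group of rank two. -/
abbrev F := FreeGroup (Fin 2)

/-- Nonzero integer vectors. -/
abbrev V := {p : ℤ × ℤ // p ≠ 0}

/-- The group of integer matrices of determinant one. -/
abbrev G := Matrix.SpecialLinearGroup (Fin 2) ℤ

lemma det_eq (g : G) : g 0 0 * g 1 1 - g 0 1 * g 1 0 = 1 := by
  have h := g.det_coe
  rw [Matrix.det_fin_two] at h
  exact h

lemma smul_aux (g : G) (v : V) :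
    ((g 0 0 * v.1.1 + g 0 1 * v.1.2, g 1 0 * v.1.1 + g 1 1 * v.1.2) : ℤ × ℤ) ≠ 0 := by
  intro h
  apply v.2
  have h1 : g 0 0 * v.1.1 + g 0 1 * v.1.2 = 0 := congrArg Prod.fst h
  have h2 : g 1 0 * v.1.1 + g 1 1 * v.1.2 = 0 := congrArg Prod.snd h
  have hd := det_eq g
  ext
  · change v.1.1 = 0
    linear_combination (-v.1.1) * hd + g 1 1 * h1 - g 0 1 * h2
  · change v.1.2 = 0
    linear_combination (-v.1.2) * hd + g 0 0 * h2 - g 1 0 * h1

instance : MulAction G V where
  smul g v := ⟨(g 0 0 * v.1.1 + g 0 1 * v.1.2, g 1 0 * v.1.1 + g 1 1 * v.1.2), smul_aux g v⟩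
  one_smul v := by
    apply Subtype.ext
    ext
    · change (1 : G) 0 0 * v.1.1 + (1 : G) 0 1 * v.1.2 = v.1.1
      simp
    · change (1 : G) 1 0 * v.1.1 + (1 : G) 1 1 * v.1.2 = v.1.2
      simp
  mul_smul g h v := by
    apply Subtype.ext
    ext
    · change (g * h) 0 0 * v.1.1 + (g * h) 0 1 * v.1.2 =
        g 0 0 * (h 0 0 * v.1.1 + h 0 1 * v.1.2) + g 0 1 * (h 1 0 * v.1.1 + h 1 1 * v.1.2)
      simp [Matrix.mul_apply, Fin.sum_univ_two]
      ring
    · change (g * h) 1 0 * v.1.1 + (g * h) 1 1 * v.1.2 =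
        g 1 0 * (h 0 0 * v.1.1 + h 0 1 * v.1.2) + g 1 1 * (h 1 0 * v.1.1 + h 1 1 * v.1.2)
      simp [Matrix.mul_apply, Fin.sum_univ_two]
      ring

lemma smul_fst (g : G) (v : V) : (g • v).1.1 = g 0 0 * v.1.1 + g 0 1 * v.1.2 := rfl
lemma smul_snd (g : G) (v : V) : (g • v).1.2 = g 1 0 * v.1.1 + g 1 1 * v.1.2 := rfl

/-- First Sanov matrix. -/
def A : G := ⟨!![1, 2; 0, 1], by simp [Matrix.det_fin_two]⟩
/-- Second Sanov matrix. -/
def B : G := ⟨!![1, 0; 2, 1], by simp [Matrix.det_fin_two]⟩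

/-- The Sanov representation. -/
def φ : F →* G := FreeGroup.lift ![A, B]

/-- Attracting sets. -/
def X : Fin 2 → Set V :=
  ![{v | v.1.2 ^ 2 ≤ v.1.1 * v.1.2}, {v | 0 ≤ v.1.1 * v.1.2 ∧ v.1.1 * v.1.2 < v.1.2 ^ 2}]
/-- Repelling sets. -/
def Y : Fin 2 → Set V :=
  ![{v | v.1.1 * v.1.2 < - v.1.2 ^ 2}, {v | - v.1.2 ^ 2 ≤ v.1.1 * v.1.2 ∧ v.1.1 * v.1.2 < 0}]

lemma smulA (v : V) : (A • v).1 = (v.1.1 + 2 * v.1.2, v.1.2) := by
  ext
  · rw [smul_fst]; simp [A]
  · rw [smul_snd]; simp [A]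

lemma smulB (v : V) : (B • v).1 = (v.1.1, v.1.2 + 2 * v.1.1) := by
  ext
  · rw [smul_fst]; simp [B]
  · rw [smul_snd]; simp [B]; ring

lemma smulA_inv (v : V) : (A⁻¹ • v).1 = (v.1.1 - 2 * v.1.2, v.1.2) := by
  have h := smulA (A⁻¹ • v)
  rw [smul_inv_smul] at h
  rw [h]
  ext <;> simp

lemma smulB_inv (v : V) : (B⁻¹ • v).1 = (v.1.1, v.1.2 - 2 * v.1.1) := by
  have h := smulB (B⁻¹ • v)
  rw [smul_inv_smul] at h
  rw [h]
  ext <;> simp

lemma pos_of (v : V) : 0 < v.1.1 ^ 2 + v.1.2 ^ 2 := by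
  have h := v.2
  have : v.1.1 ≠ 0 ∨ v.1.2 ≠ 0 := by
    by_contra hc
    push Not at hc
    exact h (Prod.ext hc.1 hc.2)
  rcases this with h | h
  · positivity
  · positivity

lemma φ_injective : Function.Injective φ := by
  refine FreeGroup.injective_lift_of_ping_pong ![A, B] X Y ?_ ?_ ?_ ?_ ?_ ?_
  · intro i
    fin_cases i
    · exact ⟨⟨(1, 1), by simp⟩, by simp [X]⟩
    · exact ⟨⟨(0, 1), by simp⟩, by simp [X]⟩
  · intro i j hij
    fin_cases i <;> fin_cases j <;> first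
      | exact absurd rfl hij
      | (rw [Function.onFun, Set.disjoint_left]
         intro v h1 h2
         simp [X] at h1 h2
         nlinarith)
  · intro i j hij
    fin_cases i <;> fin_cases j <;> first
      | exact absurd rfl hij
      | (rw [Function.onFun, Set.disjoint_left]
         intro v h1 h2
         simp [Y] at h1 h2
         nlinarith)
  · intro i j
    fin_cases i <;> fin_cases j <;>
      (rw [Set.disjoint_left]
       intro v h1 h2
       simp [X, Y] at h1 h2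
       nlinarith)
  · intro i
    fin_cases i
    · rintro _ ⟨v, hv, rfl⟩
      simp [X, Y] at hv ⊢
      rw [smulA]
      simp only
      nlinarith
    · rintro _ ⟨v, hv, rfl⟩
      simp [X, Y] at hv ⊢
      rw [smulB]
      simp only
      have hpos := pos_of v
      by_cases h0 : 0 ≤ v.1.1 * v.1.2
      · constructor
        · nlinarith
        · nlinarith
      · have h1 : v.1.1 * v.1.2 < - v.1.2 ^ 2 := by
          by_contra hc
          push Not at hc
          exact absurd (hv hc) (by simpa using lt_of_not_ge h0)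
        constructor
        · nlinarith
        · nlinarith
  · intro i
    fin_cases i
    · rintro _ ⟨v, hv, rfl⟩
      simp [X, Y] at hv ⊢
      rw [smulA_inv]
      simp only
      nlinarith
    · rintro _ ⟨v, hv, rfl⟩
      simp [X, Y] at hv ⊢
      rw [smulB_inv]
      simp only
      have hpos := pos_of v
      by_cases h0 : 0 ≤ v.1.1 * v.1.2
      · have h1 := hv h0
        have h2 : v.1.1 * v.1.2 ≤ v.1.1 ^ 2 := by nlinarith [sq_nonneg (v.1.1 - v.1.2)]
        have h3 : 0 < v.1.1 ^ 2 := by nlinarith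
        constructor
        · nlinarith [sq_nonneg (v.1.1 - v.1.2)]
        · nlinarith
      · push Not at h0
        constructor
        · nlinarith [sq_nonneg v.1.1, sq_nonneg v.1.2]
        · nlinarith [sq_nonneg v.1.1]

/-- First generator. -/
abbrev a : F := FreeGroup.of 0
/-- Second generator. -/
abbrev b : F := FreeGroup.of 1

@[simp] lemma φ_a : φ a = A := by simp [φ]
@[simp] lemma φ_b : φ b = B := by simp [φ]

/-- The action of the generators on `Bool × F`. -/
def permA : Equiv.Perm (Bool × F) where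
  toFun p := match p with
    | (false, h) => (true, h)
    | (true, h) => (false, b * a⁻¹ * h)
  invFun p := match p with
    | (false, h) => (true, a * b⁻¹ * h)
    | (true, h) => (false, h)
  left_inv p := by rcases p with ⟨_ | _, h⟩ <;> simp [mul_assoc]
  right_inv p := by rcases p with ⟨_ | _, h⟩ <;> simp [mul_assoc]

/-- The action of the generators on `Bool × F`. -/
def permB : Equiv.Perm (Bool × F) where
  toFun p := match p with
    | (false, h) => (false, a⁻¹ * a⁻¹ * h)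
    | (true, h) => (true, a * b * b * a⁻¹ * h)
  invFun p := match p with
    | (false, h) => (false, a * a * h)
    | (true, h) => (true, a * b⁻¹ * b⁻¹ * a⁻¹ * h)
  left_inv p := by rcases p with ⟨_ | _, h⟩ <;> simp [mul_assoc]
  right_inv p := by rcases p with ⟨_ | _, h⟩ <;> simp [mul_assoc]

/-- The action of the free group on `Bool × F`. -/
def π : F →* Equiv.Perm (Bool × F) := FreeGroup.lift ![permA, permB]

@[simp] lemma π_a : π a = permA := by simp [π]
@[simp] lemma π_b : π b = permB := by simp [π]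

/-- Structure of the action: `g` moves the block by `e` and multiplies on the left by `k`. -/
lemma π_struct (g : F) : ∃ (e : Bool) (k : Bool → F), ∀ i h, π g (i, h) = (xor i e, k i * h) := by
  induction g using FreeGroup.induction_on with
  | C1 => exact ⟨false, fun _ => 1, fun i h => by simp⟩
  | of x =>
    fin_cases x
    · refine ⟨true, fun i => if i then b * a⁻¹ else 1, fun i h => ?_⟩
      change π a (i, h) = _
      rw [π_a]
      rcases i with _ | _ <;> simp [permA]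
    · refine ⟨false, fun i => if i then a * b * b * a⁻¹ else a⁻¹ * a⁻¹, fun i h => ?_⟩
      change π b (i, h) = _
      rw [π_b]
      rcases i with _ | _ <;> simp [permB]
  | inv_of x ih =>
    obtain ⟨e, k, hk⟩ := ih
    refine ⟨e, fun i => (k (xor i e))⁻¹, fun i h => ?_⟩
    rw [map_inv, Equiv.Perm.inv_eq_iff_eq, hk]
    simp
  | mul x y hx hy =>
    obtain ⟨e, k, hk⟩ := hx
    obtain ⟨e', k', hk'⟩ := hy
    refine ⟨xor e' e, fun i => k (xor i e') * k' i, fun i h => ?_⟩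
    rw [map_mul, Equiv.Perm.mul_apply, hk', hk]
    simp [mul_assoc]

/-- The subgroup of index two. -/
def S : Subgroup F where
  carrier := {g | (π g (false, 1)).1 = false}
  one_mem' := by simp
  mul_mem' := by
    intro g g' hg hg'
    obtain ⟨e, k, hk⟩ := π_struct g
    obtain ⟨e', k', hk'⟩ := π_struct g'
    simp only [Set.mem_ofPred_eq, map_mul, Equiv.Perm.mul_apply, hk, hk'] at *
    simp_all
  inv_mem' := by
    intro g hg
    obtain ⟨e, k, hk⟩ := π_struct g
    obtain ⟨e', k', hk'⟩ := π_struct g⁻¹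
    have h1 : π g⁻¹ (π g (false, 1)) = (false, 1) := by
      rw [← Equiv.Perm.mul_apply, ← map_mul]; simp
    simp only [Set.mem_ofPred_eq, hk, hk'] at *
    simp_all

lemma mem_S {g : F} : g ∈ S ↔ (π g (false, 1)).1 = false := Iff.rfl

lemma S_index : S.index = 2 := by
  rw [Subgroup.index_eq_two_iff]
  refine ⟨a, fun g => ?_⟩
  obtain ⟨e, k, hk⟩ := π_struct g
  rw [mem_S, mem_S, map_mul, Equiv.Perm.mul_apply, π_a]
  have : permA (false, (1 : F)) = (true, 1) := rfl
  rw [this, hk, hk]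
  rcases e with _ | _ <;> simp

/-- The homomorphism from `S` to the free group. -/
def f : S →* F where
  toFun g := (π g (false, 1)).2
  map_one' := by simp
  map_mul' := by
    intro g g'
    obtain ⟨e, k, hk⟩ := π_struct g
    obtain ⟨e', k', hk'⟩ := π_struct g'
    have hg := g.2
    have hg' := g'.2
    rw [mem_S] at hg hg'
    simp only [Subgroup.coe_mul, map_mul, Equiv.Perm.mul_apply, hk, hk'] at *
    simp_all

lemma π_f (g : S) : π g (false, 1) = (false, f g) := Prod.ext g.2 rfl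

/-- The matrix `t`, of determinant two and trace one. -/
def t : Matrix (Fin 2) (Fin 2) ℤ := !![1, -2; 1, 0]

/-- The matrices attached to the points of `Bool × F`. -/
def E (p : Bool × F) : Matrix (Fin 2) (Fin 2) ℤ :=
  (φ p.2⁻¹ : Matrix (Fin 2) (Fin 2) ℤ) * (if p.1 then t * (A⁻¹ : G) else t)

lemma key1 : (A : Matrix (Fin 2) (Fin 2) ℤ) * ((B⁻¹ : G) : Matrix (Fin 2) (Fin 2) ℤ) * t *
    (A : Matrix (Fin 2) (Fin 2) ℤ) = - (t * ((A⁻¹ : G) : Matrix (Fin 2) (Fin 2) ℤ)) := by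
  decide

lemma key2 : (A : Matrix (Fin 2) (Fin 2) ℤ) * (A : Matrix (Fin 2) (Fin 2) ℤ) * t *
    (B : Matrix (Fin 2) (Fin 2) ℤ) = t := by
  decide

lemma key3 : (A : Matrix (Fin 2) (Fin 2) ℤ) * ((B⁻¹ : G) : Matrix (Fin 2) (Fin 2) ℤ) *
    ((B⁻¹ : G) : Matrix (Fin 2) (Fin 2) ℤ) * ((A⁻¹ : G) : Matrix (Fin 2) (Fin 2) ℤ) *
    (t * ((A⁻¹ : G) : Matrix (Fin 2) (Fin 2) ℤ)) * (B : Matrix (Fin 2) (Fin 2) ℤ) =
    t * ((A⁻¹ : G) : Matrix (Fin 2) (Fin 2) ℤ) := by
  decide

lemma E_equiv (g : F) : ∀ p, E (π g p) * (φ g : Matrix (Fin 2) (Fin 2) ℤ) = E p ∨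
    E (π g p) * (φ g : Matrix (Fin 2) (Fin 2) ℤ) = - E p := by
  induction g using FreeGroup.induction_on with
  | C1 => intro p; left; simp
  | of x =>
    fin_cases x
    · change ∀ p, E (π a p) * (φ a : Matrix (Fin 2) (Fin 2) ℤ) = E p ∨
        E (π a p) * (φ a : Matrix (Fin 2) (Fin 2) ℤ) = - E p
      rw [π_a, φ_a]
      rintro ⟨_ | _, h⟩
      · left
        change (φ h⁻¹ : Matrix (Fin 2) (Fin 2) ℤ) * (t * ((A⁻¹ : G) : Matrix (Fin 2) (Fin 2) ℤ)) *
          (A : Matrix (Fin 2) (Fin 2) ℤ) = (φ h⁻¹ : Matrix (Fin 2) (Fin 2) ℤ) * t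
        rw [Matrix.mul_assoc, Matrix.mul_assoc, ← Matrix.SpecialLinearGroup.coe_mul]
        simp
      · right
        change (φ (b * a⁻¹ * h)⁻¹ : Matrix (Fin 2) (Fin 2) ℤ) * t *
          (A : Matrix (Fin 2) (Fin 2) ℤ) = - ((φ h⁻¹ : Matrix (Fin 2) (Fin 2) ℤ) *
            (t * ((A⁻¹ : G) : Matrix (Fin 2) (Fin 2) ℤ)))
        have h1 : (b * a⁻¹ * h)⁻¹ = h⁻¹ * (a * b⁻¹) := by group
        rw [h1, map_mul φ, map_mul φ, map_inv φ b, φ_a, φ_b, ← Matrix.mul_neg, ← key1]
        simp only [Matrix.SpecialLinearGroup.coe_mul, Matrix.mul_assoc]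
    · change ∀ p, E (π b p) * (φ b : Matrix (Fin 2) (Fin 2) ℤ) = E p ∨
        E (π b p) * (φ b : Matrix (Fin 2) (Fin 2) ℤ) = - E p
      rw [π_b, φ_b]
      rintro ⟨_ | _, h⟩
      · left
        change (φ (a⁻¹ * a⁻¹ * h)⁻¹ : Matrix (Fin 2) (Fin 2) ℤ) * t *
          (B : Matrix (Fin 2) (Fin 2) ℤ) = (φ h⁻¹ : Matrix (Fin 2) (Fin 2) ℤ) * t
        have h1 : (a⁻¹ * a⁻¹ * h)⁻¹ = h⁻¹ * (a * a) := by simp [mul_assoc]
        rw [h1, map_mul φ, map_mul φ, φ_a]
        conv_rhs => rw [← key2]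
        simp only [Matrix.SpecialLinearGroup.coe_mul, Matrix.mul_assoc]
      · left
        change (φ (a * b * b * a⁻¹ * h)⁻¹ : Matrix (Fin 2) (Fin 2) ℤ) *
          (t * ((A⁻¹ : G) : Matrix (Fin 2) (Fin 2) ℤ)) *
          (B : Matrix (Fin 2) (Fin 2) ℤ) = (φ h⁻¹ : Matrix (Fin 2) (Fin 2) ℤ) *
            (t * ((A⁻¹ : G) : Matrix (Fin 2) (Fin 2) ℤ))
        have h1 : (a * b * b * a⁻¹ * h)⁻¹ = h⁻¹ * (a * b⁻¹ * b⁻¹ * a⁻¹) := by group
        rw [h1, map_mul φ, map_mul φ, map_mul φ, map_mul φ, map_inv φ b, map_inv φ a, φ_a, φ_b]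
        conv_rhs => rw [← key3]
        simp only [Matrix.SpecialLinearGroup.coe_mul, Matrix.mul_assoc]
  | inv_of x ih =>
    intro p
    have h := ih (π (FreeGroup.of x)⁻¹ p)
    rw [← Equiv.Perm.mul_apply, ← map_mul] at h
    simp only [mul_inv_cancel, map_one, Equiv.Perm.coe_one, id_eq] at h
    have h2 : (φ (FreeGroup.of x) : Matrix (Fin 2) (Fin 2) ℤ) *
        (φ (FreeGroup.of x)⁻¹ : Matrix (Fin 2) (Fin 2) ℤ) = 1 := by
      rw [← Matrix.SpecialLinearGroup.coe_mul, ← map_mul, mul_inv_cancel, map_one,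
        Matrix.SpecialLinearGroup.coe_one]
    rcases h with h | h
    · left
      rw [← h, Matrix.mul_assoc, h2, Matrix.mul_one]
    · right
      rw [eq_neg_iff_add_eq_zero, add_comm, ← eq_neg_iff_add_eq_zero] at h
      rw [h, Matrix.neg_mul, Matrix.mul_assoc, h2, Matrix.mul_one]
  | mul x y hx hy =>
    intro p
    have h1 := hy p
    have h2 := hx (π y p)
    rw [map_mul, Equiv.Perm.mul_apply, map_mul, Matrix.SpecialLinearGroup.coe_mul,
      ← Matrix.mul_assoc]
    rcases h2 with h2 | h2 <;> rcases h1 with h1 | h1 <;> rw [h2] <;> simp [h1]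

/-- The homomorphism `f` is conjugation by `t`, up to sign. -/
lemma f_conj (g : S) :
    t * (φ g : Matrix (Fin 2) (Fin 2) ℤ) = (φ (f g) : Matrix (Fin 2) (Fin 2) ℤ) * t ∨
    t * (φ g : Matrix (Fin 2) (Fin 2) ℤ) = - ((φ (f g) : Matrix (Fin 2) (Fin 2) ℤ) * t) := by
  have h := E_equiv g (false, 1)
  rw [π_f] at h
  have e1 : E (false, f g) = (φ (f g)⁻¹ : Matrix (Fin 2) (Fin 2) ℤ) * t := rfl
  have e2 : E (false, 1) = t := by simp [E]
  rw [e1, e2] at h
  have h2 : (φ (f g) : Matrix (Fin 2) (Fin 2) ℤ) * (φ (f g)⁻¹ : Matrix (Fin 2) (Fin 2) ℤ) = 1 := by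
    rw [← Matrix.SpecialLinearGroup.coe_mul, ← map_mul, mul_inv_cancel, map_one,
      Matrix.SpecialLinearGroup.coe_one]
  rcases h with h | h
  · left
    conv_rhs => rw [← h]
    rw [← Matrix.mul_assoc, ← Matrix.mul_assoc, h2, Matrix.one_mul]
  · right
    rw [← Matrix.mul_neg, ← h, ← Matrix.mul_assoc, ← Matrix.mul_assoc, h2, Matrix.one_mul]

/-- Descent for the norm form of `ℚ(√-7)`. -/
lemma descent (N : ℕ) : ∀ x z : ℕ → ℤ,
    (∀ n, (2 * x (n + 1) = - x n - 2 * z n ∧ 2 * z (n + 1) = x n - 2 * z n) ∨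
      (2 * x (n + 1) = x n + 2 * z n ∧ 2 * z (n + 1) = - x n + 2 * z n)) →
    (x 0) ^ 2 - x 0 * z 0 + 2 * (z 0) ^ 2 = N → N = 0 := by
  induction N using Nat.strong_induction_on with
  | _ N ih =>
    intro x z h hN
    have hx : ∀ n, ∃ u, x n = 2 * u := by
      intro n
      rcases h n with h | h
      · exact ⟨z (n + 1) + z n, by linarith⟩
      · exact ⟨z n - z (n + 1), by linarith⟩
    have hz : ∀ n, ∃ u, z (n + 1) = 2 * u := by
      intro n
      obtain ⟨u, hu⟩ := hx (n + 1)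
      rcases h n with h | h
      · exact ⟨-u - z n, by linarith⟩
      · exact ⟨z n - u, by linarith⟩
    choose x' hx' using fun n => hx (n + 1)
    choose z' hz' using hz
    have hrec : ∀ n, (2 * x' (n + 1) = - x' n - 2 * z' n ∧ 2 * z' (n + 1) = x' n - 2 * z' n) ∨
      (2 * x' (n + 1) = x' n + 2 * z' n ∧ 2 * z' (n + 1) = - x' n + 2 * z' n) := by
      intro n
      have h1 := h (n + 1)
      rw [hx' n, hx' (n + 1), hz' n, hz' (n + 1)] at h1
      rcases h1 with h1 | h1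
      · left; constructor <;> linarith [h1.1, h1.2]
      · right; constructor <;> linarith [h1.1, h1.2]
    have h4 : (N : ℤ) = 4 * ((x' 0) ^ 2 - x' 0 * z' 0 + 2 * (z' 0) ^ 2) := by
      have h0 := h 0
      rw [zero_add, hx' 0, hz' 0] at h0
      rw [← hN]
      rcases h0 with ⟨h1, h2⟩ | ⟨h1, h2⟩
      · have e1 : x 0 = 2 * (z' 0 - x' 0) := by linarith
        have e2 : z 0 = - (x' 0 + z' 0) := by linarith
        rw [e1, e2]; ring
      · have e1 : x 0 = 2 * (x' 0 - z' 0) := by linarith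
        have e2 : z 0 = x' 0 + z' 0 := by linarith
        rw [e1, e2]; ring
    have hnonneg : 0 ≤ (x' 0) ^ 2 - x' 0 * z' 0 + 2 * (z' 0) ^ 2 := by
      nlinarith [sq_nonneg (2 * x' 0 - z' 0), sq_nonneg (z' 0)]
    obtain ⟨N', hN'⟩ := Int.eq_ofNat_of_zero_le hnonneg
    by_contra hN0
    have hlt : N' < N := by
      rw [hN'] at h4
      omega
    have := ih N' hlt x' z' hrec hN'
    rw [hN', this] at h4
    omega

/-- An integral sequence of conjugates by powers of `t` (up to signs) starts with a matrix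
commuting with `t`. -/
lemma commutes (M : ℕ → Matrix (Fin 2) (Fin 2) ℤ)
    (h : ∀ n, t * M n = M (n + 1) * t ∨ t * M n = - (M (n + 1) * t)) :
    2 * M 0 1 0 + M 0 0 1 = 0 ∧ M 0 0 0 - M 0 1 0 - M 0 1 1 = 0 := by
  have hent : ∀ n,
      (M n 0 0 - 2 * M n 1 0 = M (n+1) 0 0 + M (n+1) 0 1 ∧
        M n 0 1 - 2 * M n 1 1 = - 2 * M (n+1) 0 0 ∧
        M n 0 0 = M (n+1) 1 0 + M (n+1) 1 1 ∧ M n 0 1 = - 2 * M (n+1) 1 0) ∨
      (M n 0 0 - 2 * M n 1 0 = - (M (n+1) 0 0 + M (n+1) 0 1) ∧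
        M n 0 1 - 2 * M n 1 1 = 2 * M (n+1) 0 0 ∧
        M n 0 0 = - (M (n+1) 1 0 + M (n+1) 1 1) ∧ M n 0 1 = 2 * M (n+1) 1 0) := by
    intro n
    rcases h n with h | h
    · left
      have h00 := congrFun (congrFun h 0) 0
      have h01 := congrFun (congrFun h 0) 1
      have h10 := congrFun (congrFun h 1) 0
      have h11 := congrFun (congrFun h 1) 1
      simp [t, Matrix.mul_apply, Fin.sum_univ_two] at h00 h01 h10 h11
      refine ⟨?_, ?_, ?_, ?_⟩ <;> linarith
    · right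
      have h00 := congrFun (congrFun h 0) 0
      have h01 := congrFun (congrFun h 0) 1
      have h10 := congrFun (congrFun h 1) 0
      have h11 := congrFun (congrFun h 1) 1
      simp [t, Matrix.mul_apply, Fin.sum_univ_two] at h00 h01 h10 h11
      refine ⟨?_, ?_, ?_, ?_⟩ <;> linarith
  set x : ℕ → ℤ := fun n => - 2 * M n 1 0 - M n 0 1 with hx
  set z : ℕ → ℤ := fun n => M n 0 0 - M n 1 0 - M n 1 1 with hz
  have hnonneg : 0 ≤ (x 0) ^ 2 - x 0 * z 0 + 2 * (z 0) ^ 2 := by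
    nlinarith [sq_nonneg (2 * x 0 - z 0), sq_nonneg (z 0)]
  obtain ⟨N, hN⟩ := Int.eq_ofNat_of_zero_le hnonneg
  have h0 : N = 0 := by
    refine descent N x z ?_ hN
    intro n
    rcases hent n with ⟨h1, h2, h3, h4⟩ | ⟨h1, h2, h3, h4⟩
    · left
      simp only [hx, hz]
      constructor <;> linarith
    · right
      simp only [hx, hz]
      constructor <;> linarith
  rw [h0] at hN
  push_cast at hN
  have hz0 : z 0 = 0 := by
    have : 7 * (z 0) ^ 2 ≤ 0 := by nlinarith [sq_nonneg (2 * x 0 - z 0)]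
    nlinarith [sq_nonneg (z 0), pow_eq_zero_iff (n := 2) (a := z 0) two_ne_zero]
  have hx0 : x 0 = 0 := by
    rw [hz0] at hN
    have : (x 0) ^ 2 = 0 := by linarith
    exact pow_eq_zero_iff (two_ne_zero) |>.1 this
  constructor
  · simp only [hx] at hx0; linarith
  · simpa only [hz] using hz0

/-- An element of the image of the Sanov representation that commutes with `t` is trivial. -/
lemma trivial_of_commutes (g : F) (h1 : 2 * (φ g) 1 0 + (φ g) 0 1 = 0)
    (h2 : (φ g) 0 0 - (φ g) 1 0 - (φ g) 1 1 = 0) : g = 1 := by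
  have hd := det_eq (φ g)
  set p := (φ g) 0 0
  set c := (φ g) 1 0
  have e1 : (φ g) 0 1 = - 2 * c := by linarith
  have e2 : (φ g) 1 1 = p - c := by linarith
  rw [e1, e2] at hd
  have h3 : (2 * p - c) ^ 2 + 7 * c ^ 2 = 4 := by linarith
  have hc : c = 0 := by
    by_contra hc
    have : 1 ≤ c ^ 2 := by
      have := Int.one_le_abs hc
      nlinarith [sq_abs c]
    nlinarith [sq_nonneg (2 * p - c)]
  rw [hc] at hd e1 e2
  have hp : p ^ 2 = 1 := by linarith
  have hsq : φ (g ^ 2) = 1 := by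
    rw [map_pow, pow_two]
    ext i j
    rw [Matrix.SpecialLinearGroup.coe_mul, Matrix.mul_apply, Fin.sum_univ_two]
    fin_cases i <;> fin_cases j
    · change p * p + (φ g) 0 1 * c = 1
      rw [hc]; linarith
    · change p * (φ g) 0 1 + (φ g) 0 1 * (φ g) 1 1 = 0
      rw [e1]; ring
    · change c * p + (φ g) 1 1 * c = 0
      rw [hc]; ring
    · change c * (φ g) 0 1 + (φ g) 1 1 * (φ g) 1 1 = 1
      rw [e2, hc]; linarith
  have h4 : g ^ 2 = 1 := φ_injective (by rw [hsq, map_one])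
  exact (pow_eq_one_iff_left two_ne_zero).1 h4

lemma f_injective : Function.Injective f := by
  rw [injective_iff_map_eq_one]
  intro g hg
  have h := f_conj g
  rw [hg, map_one, Matrix.SpecialLinearGroup.coe_one, Matrix.one_mul] at h
  have hcomm := commutes
    (fun n => if n = 0 then (φ (g : F) : Matrix (Fin 2) (Fin 2) ℤ) else 1) (by
      intro n
      rcases n with _ | n
      · simpa using h
      · left; simp)
  apply Subtype.ext
  exact trivial_of_commutes _ hcomm.1 hcomm.2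


/-- The only subgroup of `S` mapped into itself by `f` is the trivial one. -/
theorem no_invariant (H : Subgroup F) (hHS : H ≤ S)
    (hinv : ∀ x : S, (x : F) ∈ H → (f x : F) ∈ H) : H = ⊥ := by
  by_contra hH
  obtain ⟨h, hhH, hh1⟩ := (Subgroup.ne_bot_iff_exists_ne_one).1 hH |>.elim
    (fun x hx => (⟨x.1, x.2, fun h => hx (Subtype.ext h)⟩ : ∃ h : F, h ∈ H ∧ h ≠ 1))
  -- the orbit of `h`
  let step : H → H := fun x => ⟨f ⟨x.1, hHS x.2⟩, hinv ⟨x.1, hHS x.2⟩ x.2⟩
  let seq : ℕ → H := fun n => step^[n] ⟨h, hhH⟩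
  have hseq : ∀ n, (seq (n + 1) : F) = f ⟨(seq n).1, hHS (seq n).2⟩ := by
    intro n
    change ((step^[n + 1] ⟨h, hhH⟩ : H) : F) = _
    rw [Function.iterate_succ_apply']
  apply hh1
  have hcomm := commutes (fun n => (φ (seq n).1 : Matrix (Fin 2) (Fin 2) ℤ)) (by
    intro n
    have := f_conj ⟨(seq n).1, hHS (seq n).2⟩
    rw [← hseq n] at this
    exact this)
  exact trivial_of_commutes h hcomm.1 hcomm.2

/-- The parity homomorphism sending both generators to `-1`. -/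
def par : F →* ℤˣ := FreeGroup.lift ![-1, -1]

@[simp] lemma par_a : par a = -1 := by simp [par]
@[simp] lemma par_b : par b = -1 := by simp [par]

lemma aa_mem : a * a ∈ S := by rw [mem_S, map_mul, π_a]; rfl
lemma b_mem : b ∈ S := by rw [mem_S, π_b]; rfl
lemma aba_mem : a * b * a⁻¹ ∈ S := by
  rw [mem_S, map_mul, map_mul, map_inv, π_a, π_b]; rfl

lemma f_aa : f ⟨a * a, aa_mem⟩ = b * a⁻¹ := by
  change (π (a * a) (false, 1)).2 = _
  rw [map_mul, π_a, Equiv.Perm.mul_apply]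
  simp [permA]

lemma f_b : f ⟨b, b_mem⟩ = a⁻¹ * a⁻¹ := by
  change (π b (false, 1)).2 = _
  rw [π_b]
  simp [permB]

lemma f_aba : f ⟨a * b * a⁻¹, aba_mem⟩ = b * b := by
  change (π (a * b * a⁻¹) (false, 1)).2 = _
  have h1 : permA⁻¹ (false, (1 : F)) = (true, a * b⁻¹ * 1) := rfl
  rw [map_mul, map_mul, map_inv, π_a, π_b, Equiv.Perm.mul_apply, Equiv.Perm.mul_apply, h1]
  simp [permA, permB, mul_assoc]

lemma par_f (g : F) : par ((π g (false, 1)).2) = 1 ∧ par ((π g (true, 1)).2) = 1 := by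
  have key : ∀ g : F, ∀ i h, par ((π g (i, h)).2) = par h := by
    intro g
    induction g using FreeGroup.induction_on with
    | C1 => intro i h; simp
    | of x =>
      fin_cases x
      · intro i h
        change par ((π a (i, h)).2) = _
        rw [π_a]
        rcases i with _ | _ <;> simp [permA]
      · intro i h
        change par ((π b (i, h)).2) = _
        rw [π_b]
        rcases i with _ | _ <;> simp [permB]
    | inv_of x ih =>
      intro i h
      have h1 := ih (π (FreeGroup.of x)⁻¹ (i, h)).1 (π (FreeGroup.of x)⁻¹ (i, h)).2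
      rw [Prod.mk.eta, ← Equiv.Perm.mul_apply, ← map_mul, mul_inv_cancel, map_one,
        Equiv.Perm.one_apply] at h1
      exact h1.symm
    | mul x y hx hy =>
      intro i h
      rw [map_mul, Equiv.Perm.mul_apply]
      have h1 := hx (π y (i, h)).1 (π y (i, h)).2
      rw [Prod.mk.eta] at h1
      rw [h1, hy]
  exact ⟨by rw [key]; simp, by rw [key]; simp⟩

lemma range_le : f.range ≤ par.ker := by
  rintro _ ⟨g, rfl⟩
  exact (par_f g).1

lemma aa_range : a * a ∈ f.range := by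
  have h : f (⟨b, b_mem⟩⁻¹) = a * a := by rw [map_inv, f_b]; simp
  exact ⟨_, h⟩
lemma bb_range : b * b ∈ f.range := ⟨_, f_aba⟩
lemma ba_range : b * a⁻¹ ∈ f.range := ⟨_, f_aa⟩

lemma coset (g : F) : ∀ x : F,
    (x ∈ f.range → (par g = 1 ∧ x * g ∈ f.range) ∨ (par g = -1 ∧ x * g * a ∈ f.range)) ∧
    (x * a ∈ f.range → (par g = 1 ∧ x * g * a ∈ f.range) ∨ (par g = -1 ∧ x * g ∈ f.range)) := by
  have haa := aa_range
  have hbb := bb_range
  have hba := ba_range
  induction g using FreeGroup.induction_on with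
  | C1 => intro x; simp
  | of y =>
    fin_cases y
    · intro x
      change (x ∈ f.range → (par a = 1 ∧ x * a ∈ f.range) ∨ (par a = -1 ∧ x * a * a ∈ f.range)) ∧
        (x * a ∈ f.range → (par a = 1 ∧ x * a * a ∈ f.range) ∨ (par a = -1 ∧ x * a ∈ f.range))
      refine ⟨fun h => Or.inr ⟨par_a, ?_⟩, fun h => Or.inr ⟨par_a, h⟩⟩
      have := mul_mem h haa
      rwa [← mul_assoc] at this
    · intro x
      change (x ∈ f.range → (par b = 1 ∧ x * b ∈ f.range) ∨ (par b = -1 ∧ x * b * a ∈ f.range)) ∧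
        (x * a ∈ f.range → (par b = 1 ∧ x * b * a ∈ f.range) ∨ (par b = -1 ∧ x * b ∈ f.range))
      refine ⟨fun h => Or.inr ⟨par_b, ?_⟩, fun h => Or.inr ⟨par_b, ?_⟩⟩
      · have := mul_mem (mul_mem h hba) haa
        convert this using 1
        group
      · have := mul_mem (mul_mem (mul_mem h (inv_mem haa)) (inv_mem hba)) hbb
        convert this using 1
        group
  | inv_of y ih =>
    fin_cases y
    · intro x
      have hp : par a⁻¹ = -1 := by rw [map_inv, par_a]; rfl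
      change (x ∈ f.range → (par a⁻¹ = 1 ∧ x * a⁻¹ ∈ f.range) ∨
          (par a⁻¹ = -1 ∧ x * a⁻¹ * a ∈ f.range)) ∧
        (x * a ∈ f.range → (par a⁻¹ = 1 ∧ x * a⁻¹ * a ∈ f.range) ∨
          (par a⁻¹ = -1 ∧ x * a⁻¹ ∈ f.range))
      refine ⟨fun h => Or.inr ⟨hp, ?_⟩, fun h => Or.inr ⟨hp, ?_⟩⟩
      · rwa [inv_mul_cancel_right]
      · have := mul_mem h (inv_mem haa)
        convert this using 1
        group
    · intro x
      have hp : par b⁻¹ = -1 := by rw [map_inv, par_b]; rfl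
      change (x ∈ f.range → (par b⁻¹ = 1 ∧ x * b⁻¹ ∈ f.range) ∨
          (par b⁻¹ = -1 ∧ x * b⁻¹ * a ∈ f.range)) ∧
        (x * a ∈ f.range → (par b⁻¹ = 1 ∧ x * b⁻¹ * a ∈ f.range) ∨
          (par b⁻¹ = -1 ∧ x * b⁻¹ ∈ f.range))
      refine ⟨fun h => Or.inr ⟨hp, ?_⟩, fun h => Or.inr ⟨hp, ?_⟩⟩
      · have := mul_mem (mul_mem (mul_mem h (inv_mem hbb)) hba) haa
        convert this using 1
        group
      · have := mul_mem (mul_mem h (inv_mem haa)) (inv_mem hba)
        have := mul_mem h (inv_mem (mul_mem hba haa))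
        convert this using 1
        group
  | mul y z hy hz =>
    intro x
    rw [map_mul]
    refine ⟨fun h => ?_, fun h => ?_⟩
    · rcases (hy x).1 h with ⟨h1, h2⟩ | ⟨h1, h2⟩
      · rcases (hz (x * y)).1 h2 with ⟨h3, h4⟩ | ⟨h3, h4⟩
        · left; rw [h1, h3]; exact ⟨rfl, by rwa [← mul_assoc]⟩
        · right; rw [h1, h3]; exact ⟨rfl, by rwa [← mul_assoc]⟩
      · rcases (hz (x * y)).2 h2 with ⟨h3, h4⟩ | ⟨h3, h4⟩
        · right; rw [h1, h3]; exact ⟨rfl, by rwa [← mul_assoc]⟩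
        · left; rw [h1, h3]; exact ⟨rfl, by rwa [← mul_assoc]⟩
    · rcases (hy x).2 h with ⟨h1, h2⟩ | ⟨h1, h2⟩
      · rcases (hz (x * y)).2 h2 with ⟨h3, h4⟩ | ⟨h3, h4⟩
        · left; rw [h1, h3]; exact ⟨rfl, by rwa [← mul_assoc]⟩
        · right; rw [h1, h3]; exact ⟨rfl, by rwa [← mul_assoc]⟩
      · rcases (hz (x * y)).1 h2 with ⟨h3, h4⟩ | ⟨h3, h4⟩
        · right; rw [h1, h3]; exact ⟨rfl, by rwa [← mul_assoc]⟩
        · left; rw [h1, h3]; exact ⟨rfl, by rwa [← mul_assoc]⟩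

lemma range_index : f.range.index = 2 := by
  rw [Subgroup.index_eq_two_iff]
  refine ⟨a, fun g => ?_⟩
  have h := (coset g 1).1 (one_mem _)
  rw [one_mul] at h
  rcases h with ⟨h1, h2⟩ | ⟨h1, h2⟩
  · refine Or.inr ⟨h2, fun h3 => ?_⟩
    have h4 := range_le h3
    rw [MonoidHom.mem_ker, map_mul, h1, par_a] at h4
    revert h4; decide
  · refine Or.inl ⟨h2, fun h3 => ?_⟩
    have h4 := range_le h3
    rw [MonoidHom.mem_ker, h1] at h4
    revert h4; decide

end Pool.Agent.FreeIdx2
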